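import Mathlib

/-!
# The decay number and the chromatic number of the complement
-/

set_option autoImplicit false

namespace Pool.Agent.Results.MP_efdca5_co.DecayNumber

open SimpleGraph

/-- `G` is `k`-edge-connected: any two distinct vertices are joined by `k` pairwise edge-disjoint
paths. -/
def EdgeConn {V : Type} (G : SimpleGraph V) (k : ℕ) : Prop :=
  ∀ u v : V, u ≠ v → ∃ p : Fin k → G.Walk u v, (∀ i, (p i).IsPath) ∧
    ∀ i j, i ≠ j → ∀ e ∈ (p i).edges, e ∉ (p j).edges

/-- `y_G(A) = 2 c(G - A) - |A| - 1`, where `c(G - A)` is the number of connected components of the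
spanning subgraph obtained by deleting the edges in `A`. -/
noncomputable def yA {V : Type} (G : SimpleGraph V) (A : Set (Sym2 V)) : ℤ :=
  2 * (Nat.card (G.deleteEdges A).ConnectedComponent : ℤ) - (A.ncard : ℤ) - 1

/-- `y_G`, the maximum of `y_G(A)` over all sets `A` of edges of `G`. -/
noncomputable def y {V : Type} (G : SimpleGraph V) : ℤ :=
  sSup {m : ℤ | ∃ A : Set (Sym2 V), A ⊆ G.edgeSet ∧ m = yA G A}

section

variable {V C I : Type} [Fintype V] [DecidableEq V] [Fintype C] [DecidableEq C] [Fintype I]
  [DecidableEq I]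

/-- ordered pairs whose unordered pair is in `A` -/
def dd (A : Finset (Sym2 V)) : Finset (V × V) := Finset.univ.filter fun p => s(p.1, p.2) ∈ A

theorem card_dd (A : Finset (Sym2 V)) (hA : ∀ e ∈ A, ¬ e.IsDiag) : (dd A).card = 2 * A.card := by
  have h := Finset.card_eq_sum_card_fiberwise (f := fun p : V × V => s(p.1, p.2)) (s := dd A)
    (t := A) (by
      intro p hp
      simpa [dd] using hp)
  rw [h, Finset.sum_congr rfl (g := fun _ => 2)]
  · simp [mul_comm]
  · intro e he
    induction e with
    | _ a b =>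
      have hab : a ≠ b := by
        intro h
        exact hA _ he (by simp [h])
      have : (Finset.filter (fun p : V × V => s(p.1, p.2) = s(a, b)) (dd A)) =
          {(a, b), (b, a)} := by
        ext p
        simp only [Finset.mem_filter, dd, Finset.mem_univ, true_and, Finset.mem_insert,
          Finset.mem_singleton]
        constructor
        · rintro ⟨_, h⟩
          rw [Sym2.eq_iff] at h
          rcases h with h | h
          · left; exact Prod.ext h.1 h.2
          · right; exact Prod.ext h.1 h.2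
        · rintro (rfl | rfl)
          · exact ⟨he, rfl⟩
          · exact ⟨by rw [Sym2.eq_swap]; exact he, Sym2.eq_swap⟩
      rw [this, Finset.card_pair]
      intro h
      exact hab (Prod.mk.inj h).1

/-- The set-up: `κ` is the component map of `G - A`, `q` a partition into cliques. -/
structure Setup (G : SimpleGraph V) (A : Finset (Sym2 V)) (κ : V → C) (q : V → I) : Prop where
  sub : ∀ e ∈ A, e ∈ G.edgeSet
  surj : Function.Surjective κ
  surjq : Function.Surjective q
  cross : ∀ u v, G.Adj u v → κ u ≠ κ v → s(u, v) ∈ A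
  clique : ∀ u v, u ≠ v → q u = q v → G.Adj u v

variable {G : SimpleGraph V} {A : Finset (Sym2 V)} {κ : V → C} {q : V → I}

/-- the pairs (component, clique) that meet -/
def PP (κ : V → C) (q : V → I) : Finset (C × I) := Finset.univ.image fun v => (κ v, q v)

/-- the edges in `A` between different cliques -/
def BB (A : Finset (Sym2 V)) (q : V → I) : Finset (Sym2 V) :=
  A.filter fun e => ¬ (Sym2.map q e).IsDiag

theorem card_C_le (h : Setup G A κ q) : Fintype.card C ≤ (PP κ q).card := by
  have : Finset.univ ⊆ (PP κ q).image Prod.fst := by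
    intro x _
    obtain ⟨v, rfl⟩ := h.surj x
    exact Finset.mem_image.2 ⟨(κ v, q v), Finset.mem_image.2 ⟨v, Finset.mem_univ _, rfl⟩, rfl⟩
  calc Fintype.card C = (Finset.univ : Finset C).card := rfl
    _ ≤ ((PP κ q).image Prod.fst).card := Finset.card_le_card this
    _ ≤ _ := Finset.card_image_le

/-- components met by the clique `i` -/
def TT (κ : V → C) (q : V → I) (i : I) : Finset C :=
  Finset.univ.filter fun x => (x, i) ∈ PP κ q

theorem sum_TT : ∑ i, (TT κ q i).card = (PP κ q).card := by
  rw [Finset.card_eq_sum_card_fiberwise (f := Prod.snd) (t := (Finset.univ : Finset I))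
    (by intro _ _; simp)]
  refine Finset.sum_congr rfl fun i _ => ?_
  refine Finset.card_bij (fun x _ => (x, i)) ?_ ?_ ?_
  · intro x hx
    simp only [TT, Finset.mem_filter, Finset.mem_univ, true_and] at hx
    exact Finset.mem_filter.2 ⟨hx, rfl⟩
  · intro x _ y _ hxy
    exact (Prod.mk.inj hxy).1
  · rintro ⟨x, j⟩ hx
    rw [Finset.mem_filter] at hx
    obtain ⟨h1, h2⟩ := hx
    simp only at h2
    subst h2
    exact ⟨x, by simpa [TT] using h1, rfl⟩

/-- the ordered pairs inside the clique `i` -/
theorem card_inside (h : Setup G A κ q) (i : I) :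
    (TT κ q i).card * (TT κ q i).card ≤
      ((dd A).filter fun p => q p.1 = i ∧ q p.2 = i).card + (TT κ q i).card := by
  classical
  have hrep : ∀ x : C, ∃ v : V, x ∈ TT κ q i → κ v = x ∧ q v = i := by
    intro x
    by_cases hx : x ∈ TT κ q i
    · have h1 : (x, i) ∈ PP κ q := by simpa [TT] using hx
      obtain ⟨v, _, hv⟩ := Finset.mem_image.1 h1
      exact ⟨v, fun _ => ⟨(Prod.mk.inj hv).1, (Prod.mk.inj hv).2⟩⟩
    · obtain ⟨v, _⟩ := h.surj x
      exact ⟨v, fun h => absurd h hx⟩
  choose ρ hρ using hrep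
  have hoff : ((TT κ q i).offDiag).card ≤
      ((dd A).filter fun p => q p.1 = i ∧ q p.2 = i).card := by
    refine Finset.card_le_card_of_injOn (fun p => (ρ p.1, ρ p.2)) ?_ ?_
    · rintro ⟨x, z⟩ hp
      rw [Finset.mem_coe, Finset.mem_offDiag] at hp
      obtain ⟨hx, hz, hne⟩ := hp
      have e1 := hρ x hx
      have e2 := hρ z hz
      have hk : κ (ρ x) ≠ κ (ρ z) := by rw [e1.1, e2.1]; exact hne
      have hv : ρ x ≠ ρ z := fun h => hk (congrArg κ h)
      simp only [Finset.coe_filter, Set.mem_ofPred_eq, dd, Finset.mem_filter, Finset.mem_univ,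
        true_and]
      exact ⟨h.cross _ _ (h.clique _ _ hv (e1.2.trans e2.2.symm)) hk, e1.2, e2.2⟩
    · rintro ⟨x, z⟩ hp ⟨x', z'⟩ hp' he
      rw [Finset.mem_coe, Finset.mem_offDiag] at hp hp'
      have h1 := (Prod.mk.inj he).1
      have h2 := (Prod.mk.inj he).2
      simp only at h1 h2 hp hp'
      have g1 := congrArg κ h1
      have g2 := congrArg κ h2
      rw [(hρ x hp.1).1, (hρ x' hp'.1).1] at g1
      rw [(hρ z hp.2.1).1, (hρ z' hp'.2.1).1] at g2
      rw [g1, g2]
  rw [Finset.offDiag_card] at hoff
  omega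

theorem dd_BB (A : Finset (Sym2 V)) (q : V → I) :
    dd (BB A q) = (dd A).filter fun p => q p.1 ≠ q p.2 := by
  ext p
  simp [dd, BB]

theorem star_ineq (h : Setup G A κ q) :
    2 * (PP κ q).card + (BB A q).card ≤ A.card + 3 * Fintype.card I := by
  classical
  have hA : ∀ e ∈ A, ¬ e.IsDiag := fun e he => G.not_isDiag_of_mem_edgeSet (h.sub e he)
  have hB : ∀ e ∈ BB A q, ¬ e.IsDiag := fun e he => hA e (Finset.mem_filter.1 he).1
  have e1 := card_dd A hA
  have e2 := card_dd (BB A q) hB
  rw [dd_BB] at e2
  have e3 := Finset.card_filter_add_card_filter_not (s := dd A) (p := fun p => q p.1 ≠ q p.2)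
  have e4 : ((dd A).filter fun p => ¬ (q p.1 ≠ q p.2)).card =
      ∑ i : I, ((dd A).filter fun p => q p.1 = i ∧ q p.2 = i).card := by
    rw [Finset.card_eq_sum_card_fiberwise (f := fun p : V × V => q p.1)
      (t := (Finset.univ : Finset I)) (by intro _ _; simp)]
    refine Finset.sum_congr rfl fun i _ => ?_
    rw [Finset.filter_filter]
    congr 1
    ext p
    simp only [Finset.mem_filter, not_not]
    constructor
    · rintro ⟨h1, h2, h3⟩
      exact ⟨h1, h3, h2 ▸ h3⟩
    · rintro ⟨h1, h2, h3⟩
      exact ⟨h1, h2.trans h3.symm, h2⟩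
  have e5 : ∑ i : I, ((TT κ q i).card * (TT κ q i).card) ≤
      ∑ i : I, (((dd A).filter fun p => q p.1 = i ∧ q p.2 = i).card + (TT κ q i).card) :=
    Finset.sum_le_sum fun i _ => card_inside h i
  rw [Finset.sum_add_distrib, sum_TT] at e5
  have e6 : ∑ i : I, 5 * (TT κ q i).card ≤
      ∑ i : I, ((TT κ q i).card * (TT κ q i).card + 6) := by
    refine Finset.sum_le_sum fun i _ => ?_
    generalize (TT κ q i).card = t
    rcases Nat.lt_or_ge t 2 with ht | ht
    · interval_cases t <;> norm_num
    · obtain ⟨s, rfl⟩ : ∃ s, t = s + 2 := ⟨t - 2, by omega⟩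
      rcases Nat.eq_zero_or_pos s with hs | hs
      · subst hs; norm_num
      · nlinarith
  rw [← Finset.mul_sum, Finset.sum_add_distrib, sum_TT, Finset.sum_const, Finset.card_univ,
    smul_eq_mul] at e6
  rw [← e4] at e5
  omega

/-- the auxiliary graph on components and cliques -/
def KK (A : Finset (Sym2 V)) (κ : V → C) (q : V → I) : SimpleGraph (C ⊕ I) :=
  SimpleGraph.fromEdgeSet
    (((PP κ q).image (fun p => s(Sum.inl p.1, Sum.inr p.2)) ∪
      (BB A q).image (fun e => Sym2.map (fun v => Sum.inr (q v)) e) : Finset (Sym2 (C ⊕ I))) :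
        Set (Sym2 (C ⊕ I)))

theorem KK_card (A : Finset (Sym2 V)) (κ : V → C) (q : V → I) :
    Nat.card (KK A κ q).edgeSet ≤ (PP κ q).card + (BB A q).card := by
  classical
  have h1 : (KK A κ q).edgeSet ⊆ (((PP κ q).image (fun p => s(Sum.inl p.1, Sum.inr p.2)) ∪
      (BB A q).image (fun e => Sym2.map (fun v => Sum.inr (q v)) e) : Finset (Sym2 (C ⊕ I))) :
        Set (Sym2 (C ⊕ I))) := by
    unfold KK
    rw [SimpleGraph.edgeSet_fromEdgeSet]
    exact Set.sdiff_subset
  calc Nat.card (KK A κ q).edgeSet = (KK A κ q).edgeSet.ncard := rfl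
    _ ≤ _ := Set.ncard_le_ncard h1 (Finset.finite_toSet _)
    _ = _ := Set.ncard_coe_finset _
    _ ≤ _ := Finset.card_union_le _ _
    _ ≤ _ := add_le_add Finset.card_image_le Finset.card_image_le

theorem KK_adj1 (A : Finset (Sym2 V)) (κ : V → C) (q : V → I) (v : V) :
    (KK A κ q).Adj (Sum.inl (κ v)) (Sum.inr (q v)) := by
  unfold KK
  rw [SimpleGraph.fromEdgeSet_adj]
  refine ⟨?_, by simp⟩
  rw [Finset.mem_coe, Finset.mem_union]
  left
  exact Finset.mem_image.2 ⟨(κ v, q v), Finset.mem_image.2 ⟨v, Finset.mem_univ _, rfl⟩, rfl⟩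

theorem KK_adj2 (h : Setup G A κ q) {u v : V} (huv : G.Adj u v) (hk : κ u ≠ κ v)
    (hq : q u ≠ q v) : (KK A κ q).Adj (Sum.inr (q u)) (Sum.inr (q v)) := by
  unfold KK
  rw [SimpleGraph.fromEdgeSet_adj]
  refine ⟨?_, by simpa using hq⟩
  rw [Finset.mem_coe, Finset.mem_union]
  right
  refine Finset.mem_image.2 ⟨s(u, v), Finset.mem_filter.2 ⟨h.cross u v huv hk, ?_⟩, rfl⟩
  simpa using hq

theorem KK_reach (h : Setup G A κ q) {u v : V} (huv : G.Adj u v) :
    (KK A κ q).Reachable (Sum.inl (κ u)) (Sum.inl (κ v)) := by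
  by_cases hk : κ u = κ v
  · rw [hk]
  by_cases hq : q u = q v
  · have h1 := (KK_adj1 A κ q u).reachable
    have h2 := (KK_adj1 A κ q v).reachable
    rw [hq] at h1
    exact h1.trans h2.symm
  · exact (KK_adj1 A κ q u).reachable.trans ((KK_adj2 h huv hk hq).reachable.trans
      (KK_adj1 A κ q v).reachable.symm)

theorem KK_reach' (h : Setup G A κ q) {u v : V} (huv : G.Reachable u v) :
    (KK A κ q).Reachable (Sum.inl (κ u)) (Sum.inl (κ v)) := by
  obtain ⟨p⟩ := huv
  induction p with
  | nil => exact Reachable.refl _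
  | cons hadj _ ih => exact (KK_reach h hadj).trans ih

theorem KK_conn (h : Setup G A κ q) (hG : G.Connected) : (KK A κ q).Connected := by
  obtain ⟨v0⟩ := hG.nonempty
  have key : ∀ x, (KK A κ q).Reachable (Sum.inl (κ v0)) x := by
    rintro (x | i)
    · obtain ⟨v, rfl⟩ := h.surj x
      exact KK_reach' h (hG.preconnected v0 v)
    · obtain ⟨v, rfl⟩ := h.surjq i
      exact (KK_reach' h (hG.preconnected v0 v)).trans (KK_adj1 A κ q v).reachable
  refine { preconnected := fun x y => (key x).symm.trans (key y), nonempty := ⟨Sum.inl (κ v0)⟩ }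

theorem conn_ineq (h : Setup G A κ q) (hG : G.Connected) :
    Fintype.card C + Fintype.card I ≤ (PP κ q).card + (BB A q).card + 1 := by
  have h1 := (KK_conn h hG).card_vert_le_card_edgeSet_add_one
  rw [Nat.card_sum, Nat.card_eq_fintype_card, Nat.card_eq_fintype_card] at h1
  have h2 := KK_card A κ q
  omega

/-- the case `λ = 1` -/
theorem one_bound (h : Setup G A κ q) (hG : G.Connected) :
    2 * Fintype.card C ≤ A.card + 2 * Fintype.card I + 1 := by
  have h1 := star_ineq h
  have h2 := card_C_le h
  have h3 := conn_ineq h hG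
  omega

theorem two_cut (hG : EdgeConn G 2) (S : Set V) {u v : V} (hu : u ∈ S) (hv : v ∉ S) :
    ∃ a b a' b' : V, G.Adj a b ∧ G.Adj a' b' ∧ a ∈ S ∧ b ∉ S ∧ a' ∈ S ∧ b' ∉ S ∧
      s(a, b) ≠ s(a', b') := by
  obtain ⟨p, _, hp⟩ := hG u v (fun h => hv (h ▸ hu))
  obtain ⟨d, hd, h1, h2⟩ := (p 0).exists_boundary_dart S hu hv
  obtain ⟨d', hd', h1', h2'⟩ := (p 1).exists_boundary_dart S hu hv
  refine ⟨d.fst, d.snd, d'.fst, d'.snd, d.adj, d'.adj, h1, h2, h1', h2', ?_⟩
  intro he
  have m1 : d.edge ∈ (p 0).edges := List.mem_map.2 ⟨d, hd, rfl⟩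
  have m2 : d'.edge ∈ (p 1).edges := List.mem_map.2 ⟨d', hd', rfl⟩
  have he' : d.edge = d'.edge := he
  exact hp 0 1 (by decide) _ m1 (he' ▸ m2)

theorem B_ge (h : Setup G A κ q) (hG2 : EdgeConn G 2) (hI : 2 ≤ Fintype.card I)
    (hc : Fintype.card C = (PP κ q).card) : Fintype.card I ≤ (BB A q).card := by
  classical
  -- components lie inside cliques
  have hinj : ∀ u v, κ u = κ v → q u = q v := by
    have himg : (PP κ q).image Prod.fst = Finset.univ := by
      refine Finset.eq_univ_of_forall fun x => ?_
      obtain ⟨v, rfl⟩ := h.surj x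
      exact Finset.mem_image.2 ⟨(κ v, q v), Finset.mem_image.2 ⟨v, Finset.mem_univ _, rfl⟩, rfl⟩
    have hcard : ((PP κ q).image Prod.fst).card = (PP κ q).card := by
      rw [himg, Finset.card_univ, hc]
    have hio := Finset.injOn_of_card_image_eq hcard
    intro u v huv
    have hu : (κ u, q u) ∈ PP κ q := Finset.mem_image.2 ⟨u, Finset.mem_univ _, rfl⟩
    have hv : (κ v, q v) ∈ PP κ q := Finset.mem_image.2 ⟨v, Finset.mem_univ _, rfl⟩
    exact (Prod.mk.inj (hio (Finset.mem_coe.2 hu) (Finset.mem_coe.2 hv) huv)).2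
  have hB : ∀ e ∈ BB A q, ¬ e.IsDiag := fun e he =>
    G.not_isDiag_of_mem_edgeSet (h.sub e (Finset.mem_filter.1 he).1)
  have e2 := card_dd (BB A q) hB
  have e3 : (dd (BB A q)).card = ∑ i : I, ((dd (BB A q)).filter fun p => q p.1 = i).card :=
    Finset.card_eq_sum_card_fiberwise (f := fun p : V × V => q p.1)
      (t := (Finset.univ : Finset I)) (by intro _ _; simp)
  have e4 : ∑ _i : I, 2 ≤ ∑ i : I, ((dd (BB A q)).filter fun p => q p.1 = i).card := by
    refine Finset.sum_le_sum fun i _ => ?_
    obtain ⟨u, hu⟩ := h.surjq i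
    obtain ⟨j, hj⟩ : ∃ j, j ≠ i := by
      have : Nontrivial I := Fintype.one_lt_card_iff_nontrivial.1 hI
      exact exists_ne i
    obtain ⟨v, hv⟩ := h.surjq j
    obtain ⟨a, b, a', b', h1, h2, ha, hb, ha', hb', hne⟩ :=
      two_cut hG2 {w | q w = i} (u := u) (v := v) hu (by
        intro h
        exact hj (hv.symm.trans h))
    simp only [Set.mem_ofPred_eq] at ha hb ha' hb'
    have mem : ∀ a b : V, G.Adj a b → q a = i → q b ≠ i →
        (a, b) ∈ (dd (BB A q)).filter fun p => q p.1 = i := by
      intro a b hab ha hb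
      have hq : q a ≠ q b := fun h => hb (h ▸ ha)
      simp only [dd, BB, Finset.mem_filter, Finset.mem_univ, true_and]
      refine ⟨⟨h.cross a b hab (fun h => hq (hinj a b h)), ?_⟩, ha⟩
      simpa using hq
    have hsub : ({(a, b), (a', b')} : Finset (V × V)) ⊆
        (dd (BB A q)).filter fun p => q p.1 = i := by
      intro p hp
      rw [Finset.mem_insert, Finset.mem_singleton] at hp
      rcases hp with rfl | rfl
      · exact mem _ _ h1 ha hb
      · exact mem _ _ h2 ha' hb'
    calc 2 = ({(a, b), (a', b')} : Finset (V × V)).card := by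
          rw [Finset.card_pair]
          intro he
          apply hne
          rw [(Prod.mk.inj he).1, (Prod.mk.inj he).2]
      _ ≤ _ := Finset.card_le_card hsub
  rw [Finset.sum_const, Finset.card_univ, smul_eq_mul] at e4
  omega

/-- the case of a complete graph -/
theorem complete_bound (h : Setup G A κ q) (hG2 : EdgeConn G 2)
    (hI : Fintype.card I = 1) (h3 : IsEmpty (G ≃g cycleGraph 3)) :
    2 * Fintype.card C ≤ A.card + 2 := by
  classical
  have hadj : ∀ u v, u ≠ v → G.Adj u v := by
    intro u v huv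
    refine h.clique u v huv ?_
    obtain ⟨i, hi⟩ := Fintype.card_eq_one_iff.1 hI
    rw [hi (q u), hi (q v)]
  have hcl : Fintype.card C * Fintype.card C ≤ 2 * A.card + Fintype.card C := by
    have hA : ∀ e ∈ A, ¬ e.IsDiag := fun e he => G.not_isDiag_of_mem_edgeSet (h.sub e he)
    obtain ⟨i, hi⟩ := Fintype.card_eq_one_iff.1 hI
    have h1 := card_inside h i
    have h2 : TT κ q i = Finset.univ := by
      refine Finset.eq_univ_of_forall fun x => ?_
      obtain ⟨v, rfl⟩ := h.surj x
      simp only [TT, Finset.mem_filter, Finset.mem_univ, true_and]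
      exact Finset.mem_image.2 ⟨v, Finset.mem_univ _, by rw [hi (q v)]⟩
    rw [h2, Finset.card_univ] at h1
    have h3 := Finset.card_filter_le (dd A) (fun p => q p.1 = i ∧ q p.2 = i)
    rw [card_dd A hA] at h3
    omega
  rcases Nat.lt_or_ge (Fintype.card C) 4 with hc | hc
  · have hcase : Fintype.card C ≤ 1 ∨ Fintype.card C = 2 ∨ Fintype.card C = 3 := by omega
    rcases hcase with h1 | h1 | h1
    · omega
    · -- two components
      have : Nontrivial C := Fintype.one_lt_card_iff_nontrivial.1 (by omega)
      obtain ⟨x, z, hxz⟩ := exists_pair_ne C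
      obtain ⟨u, rfl⟩ := h.surj x
      obtain ⟨v, rfl⟩ := h.surj z
      obtain ⟨a, b, a', b', g1, g2, ha, hb, ha', hb', hne⟩ :=
        two_cut hG2 {w | κ w = κ u} (u := u) (v := v) rfl (fun h => hxz h.symm)
      simp only [Set.mem_ofPred_eq] at ha hb ha' hb'
      have hsub : ({s(a, b), s(a', b')} : Finset (Sym2 V)) ⊆ A := by
        intro p hp
        rw [Finset.mem_insert, Finset.mem_singleton] at hp
        rcases hp with rfl | rfl
        · exact h.cross _ _ g1 (fun h => hb (h ▸ ha))
        · exact h.cross _ _ g2 (fun h => hb' (h ▸ ha'))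
      have := Finset.card_le_card hsub
      rw [Finset.card_pair hne] at this
      omega
    · -- three components
      have hn : Fintype.card C < Fintype.card V := by
        have hle := Fintype.card_le_of_surjective κ h.surj
        rcases hle.lt_or_eq with hlt | heq
        · exact hlt
        · exfalso
          apply h3.false
          have hG : G = ⊤ := by
            ext u v
            rw [SimpleGraph.top_adj]
            exact ⟨fun h => h.ne, hadj u v⟩
          rw [hG, cycleGraph_three_eq_top]
          have e : V ≃ Fin 3 := Fintype.equivFinOfCardEq (by omega)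
          exact ⟨e, by simp⟩
      obtain ⟨w, w', hww, hk⟩ := Fintype.exists_ne_map_eq_of_card_lt κ hn
      -- the other two components
      have hcard : (Finset.univ.erase (κ w) : Finset C).card = 2 := by
        rw [Finset.card_erase_of_mem (Finset.mem_univ _), Finset.card_univ, h1]
      obtain ⟨x, z, hxz, hset⟩ := Finset.card_eq_two.1 hcard
      have hx : x ∈ (Finset.univ.erase (κ w) : Finset C) := by rw [hset]; simp
      have hz : z ∈ (Finset.univ.erase (κ w) : Finset C) := by rw [hset]; simp
      have hx' := (Finset.mem_erase.1 hx).1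
      have hz' := (Finset.mem_erase.1 hz).1
      obtain ⟨u, rfl⟩ := h.surj x
      obtain ⟨v, rfl⟩ := h.surj z
      have huv : u ≠ v := fun h => hxz (congrArg κ h)
      have huw : u ≠ w := fun h => hx' (congrArg κ h)
      have hvw : v ≠ w := fun h => hz' (congrArg κ h)
      have huw' : u ≠ w' := fun h => hx' ((congrArg κ h).trans hk.symm)
      have hvw' : v ≠ w' := fun h => hz' ((congrArg κ h).trans hk.symm)
      have m : ∀ a b, κ a ≠ κ b → s(a, b) ∈ A := fun a b hab =>
        h.cross a b (hadj a b (fun h => hab (congrArg κ h))) hab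
      have hsub : ({s(u, w), s(v, w), s(u, w'), s(v, w')} : Finset (Sym2 V)) ⊆ A := by
        intro p hp
        simp only [Finset.mem_insert, Finset.mem_singleton] at hp
        rcases hp with rfl | rfl | rfl | rfl
        · exact m _ _ hx'
        · exact m _ _ hz'
        · exact m _ _ (hk ▸ hx')
        · exact m _ _ (hk ▸ hz')
      have hc4 : ({s(u, w), s(v, w), s(u, w'), s(v, w')} : Finset (Sym2 V)).card = 4 := by
        rw [Finset.card_insert_of_notMem, Finset.card_insert_of_notMem, Finset.card_pair]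
        · intro h
          rw [Sym2.eq_iff] at h
          rcases h with h | h
          · exact huv h.1
          · exact huw' h.1
        · simp only [Finset.mem_insert, Finset.mem_singleton, Sym2.eq_iff]
          rintro ((h | h) | (h | h))
          · exact huv h.1.symm
          · exact hvw' h.1
          · exact hww h.2
          · exact hvw' h.1
        · simp only [Finset.mem_insert, Finset.mem_singleton, Sym2.eq_iff]
          rintro ((h | h) | (h | h) | (h | h))
          · exact huv h.1
          · exact huw h.1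
          · exact hww h.2
          · exact huw' h.1
          · exact huv h.1
          · exact huw' h.1
      have := Finset.card_le_card hsub
      omega
  · have : 4 * Fintype.card C ≤ Fintype.card C * Fintype.card C :=
      Nat.mul_le_mul_right _ hc
    rcases Nat.lt_or_ge (Fintype.card C) 5 with h5 | h5
    · have : Fintype.card C = 4 := by omega
      rw [this] at hcl ⊢
      omega
    · have : 5 * Fintype.card C ≤ Fintype.card C * Fintype.card C :=
        Nat.mul_le_mul_right _ h5
      omega

/-- the case `λ = 2` -/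
theorem two_bound (h : Setup G A κ q) (hG : G.Connected) (hG2 : EdgeConn G 2)
    (h3 : IsEmpty (G ≃g cycleGraph 3)) :
    2 * Fintype.card C ≤ A.card + 2 * Fintype.card I := by
  have hpos : 0 < Fintype.card I := by
    obtain ⟨v⟩ := hG.nonempty
    exact Fintype.card_pos_iff.2 ⟨q v⟩
  rcases Nat.lt_or_ge (Fintype.card I) 2 with hI | hI
  · have := complete_bound h hG2 (by omega) h3
    omega
  · have h1 := star_ineq h
    have h2 := card_C_le h
    have h3 := conn_ineq h hG
    rcases h2.lt_or_eq with hlt | heq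
    · omega
    · have := B_ge h hG2 hI heq
      omega

end

theorem bound (lam : ℕ) (hlam : lam = 1 ∨ lam = 2) (V : Type) [Finite V] (G : SimpleGraph V)
    (hG : G.Connected) (hE : EdgeConn G lam) (h3 : IsEmpty (G ≃g cycleGraph 3))
    (A : Set (Sym2 V)) (hA : A ⊆ G.edgeSet) :
    yA G A ≤ 2 * ((Gᶜ.chromaticNumber).toNat : ℤ) - (lam : ℤ) + 1 := by
  classical
  have := Fintype.ofFinite V
  have := Fintype.ofFinite (G.deleteEdges A).ConnectedComponent
  obtain ⟨c⟩ := Gᶜ.colorable_chromaticNumber (Gᶜ.colorable_of_fintype)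
  let q : V → Set.range c := fun v => ⟨c v, v, rfl⟩
  have hcard : Fintype.card (Set.range c) ≤ (Gᶜ.chromaticNumber).toNat := by
    have := Fintype.card_subtype_le (fun i => i ∈ Set.range c)
    rw [Fintype.card_fin] at this
    convert this
  have hset : Setup G A.toFinset (fun v => (G.deleteEdges A).connectedComponentMk v) q := by
    refine ⟨?_, ?_, ?_, ?_, ?_⟩
    · intro e he
      exact hA (by simpa using he)
    · intro x
      induction x using ConnectedComponent.ind with
      | _ v => exact ⟨v, rfl⟩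
    · rintro ⟨_, v, rfl⟩
      exact ⟨v, rfl⟩
    · intro u v huv hne
      by_contra hcon
      apply hne
      rw [ConnectedComponent.eq]
      apply SimpleGraph.Adj.reachable
      rw [deleteEdges_adj]
      exact ⟨huv, by simpa using hcon⟩
    · intro u v huv hq
      by_contra hcon
      have h1 : Gᶜ.Adj u v := by
        rw [compl_adj]
        exact ⟨huv, hcon⟩
      exact c.valid h1 (congrArg Subtype.val hq)
  have e1 : A.ncard = A.toFinset.card := Set.ncard_eq_toFinset_card' A
  have e2 : Nat.card (G.deleteEdges A).ConnectedComponent =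
    Fintype.card (G.deleteEdges A).ConnectedComponent := Nat.card_eq_fintype_card
  unfold yA
  rw [e1, e2]
  rcases hlam with rfl | rfl
  · have h1 := one_bound hset hG
    push_cast
    omega
  · have h1 := two_bound hset hG hE h3
    push_cast
    omega

/-- For `λ ∈ {1, 2}`, every finite connected `λ`-edge-connected graph `G` other than the triangle
(planar or not) satisfies `y_G ≤ 2 χ(Gᶜ) - λ + 1`. -/
theorem result (lam : ℕ) (hlam : lam = 1 ∨ lam = 2) (V : Type) [Finite V] (G : SimpleGraph V)
    (hG : G.Connected) (hE : EdgeConn G lam) (h3 : IsEmpty (G ≃g cycleGraph 3)) :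
    y G ≤ 2 * ((Gᶜ.chromaticNumber).toNat : ℤ) - (lam : ℤ) + 1 := by
  refine csSup_le ⟨yA G ∅, ∅, Set.empty_subset _, rfl⟩ ?_
  rintro m ⟨A, hA, rfl⟩
  exact bound lam hlam V G hG hE h3 A hA

end Pool.Agent.Results.MP_efdca5_co.DecayNumber
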